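import Pool.Agent.Lib.MP_dde81e_an.MAIN

/-!
# Muntz type completeness on the unit square : a partial result

`blk Ω j` is the part of the series of the problem that comes from the exponents `(m,n)` with
`2 ^ j ≤ m < 2 ^ (j + 1)`.  If every radially aligned rectangle of length `L j` and width `1`
around a point of the `j`-th block contains at most `C` points of the block (no condition when
`L j = 1`) and the sum of `min (blk Ω j) ((L j * blk Ω j) ^ 2)` diverges, then the monomials span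
`C_0(Q)` and `L^2(Q)`.
-/

namespace Pool.Agent.Results.MP_dde81e_an.DyadicBlocks
open Set

/-- The unit square as a compact space. -/
abbrev Sq : Type := unitInterval × unitInterval

/-- The monomial `x^m y^n` as a continuous function on the unit square. -/
def mono (p : ℕ × ℕ) : C(Sq, ℝ) where
  toFun q := (q.1 : ℝ) ^ p.1 * (q.2 : ℝ) ^ p.2
  continuous_toFun := by fun_prop

/-- The monomials with exponents in `Ω` span `C_0(Q)`. -/
def SpansC0 (Ω : Set (ℕ × ℕ)) : Prop :=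
  ∀ f : C(Sq, ℝ), (∀ q : Sq, (q.1 : ℝ) = 0 ∨ (q.2 : ℝ) = 0 → f q = 0) →
    ∀ ε > 0, ∃ g ∈ Submodule.span ℝ (mono '' Ω), ‖f - g‖ < ε

/-- Lebesgue measure on the unit square. -/
noncomputable def muQ : MeasureTheory.Measure (ℝ × ℝ) :=
  MeasureTheory.volume.restrict (Icc (0 : ℝ) 1 ×ˢ Icc (0 : ℝ) 1)

/-- the monomial `x^m y^n` as a function on the plane -/
def monoFun (p : ℕ × ℕ) : ℝ × ℝ → ℝ := fun q => q.1 ^ p.1 * q.2 ^ p.2

/-- The monomials with exponents in `Ω` span `L²(Q)`. -/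
def SpansL2 (Ω : Set (ℕ × ℕ)) : Prop :=
  ∀ f : ℝ × ℝ → ℝ, MeasureTheory.MemLp f 2 muQ →
    ∀ ε : ℝ, 0 < ε → ∃ g ∈ Submodule.span ℝ (monoFun '' Ω),
      MeasureTheory.eLpNorm (f - g) 2 muQ < ENNReal.ofReal ε

/-- the exponents `(m,n)` of `Ω` with `2 ^ j ≤ m < 2 ^ (j + 1)` -/
def block (Ω : Set (ℕ × ℕ)) (j : ℕ) : Set (ℕ × ℕ) :=
  {p | p ∈ Ω ∧ 2 ^ j ≤ p.1 ∧ p.1 < 2 ^ (j + 1)}

/-- the part of the series `∑ 1/(m n)` that comes from the `j`-th dyadic block -/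
noncomputable def blk (Ω : Set (ℕ × ℕ)) (j : ℕ) : ℝ :=
  ∑ᶠ p ∈ block Ω j, 1 / ((p.1 : ℝ) * p.2)

theorem near_card {Ω : Set (ℕ × ℕ)} (j : ℕ) (p : ℕ × ℕ) :
    {q ∈ Ω | 2 ^ j ≤ q.1 ∧ q.1 < 2 ^ (j + 1) ∧ |(q.1 : ℝ) - p.1| ≤ 1 ∧
        |((q.2 : ℝ) - p.2) - (p.2 : ℝ) / p.1 * ((q.1 : ℝ) - p.1)| ≤ 1}.ncard ≤ 9 := by
  classical
  set c : ℤ → ℤ := fun a => ⌈(p.2 : ℝ) + (p.2 : ℝ) / p.1 * a - 1⌉ with hc
  set T : Finset (ℤ × ℤ) := (Finset.Icc (-1 : ℤ) 1) ×ˢ (Finset.Icc (0 : ℤ) 2) with hT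
  have hTc : T.card = 9 := by rw [hT]; rfl
  rw [← hTc]
  set g : ℕ × ℕ → ℤ × ℤ := fun q => ((q.1 : ℤ) - p.1, (q.2 : ℤ) - c ((q.1 : ℤ) - p.1)) with hg
  have hginj : Function.Injective g := by
    intro q q' h
    simp only [hg, Prod.mk.injEq] at h
    obtain ⟨h1, h2⟩ := h
    have h3 : (q.1 : ℤ) = q'.1 := by linarith
    rw [h3] at h2
    have h4 : (q.2 : ℤ) = q'.2 := by linarith
    ext
    · exact_mod_cast h3
    · exact_mod_cast h4
  rw [← Set.ncard_coe_finset, ← Set.ncard_image_of_injective _ hginj]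
  apply Set.ncard_le_ncard _ (Finset.finite_toSet T)
  rintro _ ⟨q, ⟨_, _, _, h1, h2⟩, rfl⟩
  rw [Finset.mem_coe, hT, Finset.mem_product, Finset.mem_Icc, Finset.mem_Icc]
  have h3 : |((q.1 : ℤ) - p.1 : ℤ)| ≤ 1 := by
    have : |(((q.1 : ℤ) - p.1 : ℤ) : ℝ)| ≤ 1 := by push_cast; exact h1
    exact_mod_cast this
  have h4 := abs_le.1 h3
  have h5 := abs_le.1 h2
  refine ⟨h4, ?_⟩
  simp only [hg, hc]
  have e1 : ((((q.1 : ℤ) - p.1 : ℤ)) : ℝ) = (q.1 : ℝ) - p.1 := by push_cast; ring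
  rw [e1]
  have h6 := Int.le_ceil ((p.2 : ℝ) + (p.2 : ℝ) / p.1 * ((q.1 : ℝ) - p.1) - 1)
  have h7 := Int.ceil_lt_add_one ((p.2 : ℝ) + (p.2 : ℝ) / p.1 * ((q.1 : ℝ) - p.1) - 1)
  set k := ⌈(p.2 : ℝ) + (p.2 : ℝ) / p.1 * ((q.1 : ℝ) - p.1) - 1⌉ with hk
  constructor
  · have : k ≤ (q.2 : ℤ) := by
      rw [hk]
      apply Int.ceil_le.2
      push_cast
      linarith
    linarith
  · have : (((q.2 : ℤ) : ℝ)) ≤ (k : ℝ) + 2 := by
      push_cast
      linarith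
    have h8 : (q.2 : ℤ) ≤ k + 2 := by exact_mod_cast this
    linarith

theorem blk_le {Ω : Set (ℕ × ℕ)} {ε : ℝ} (hε : 0 < ε)
    (hang : ∀ p ∈ Ω, ε * p.1 ≤ p.2 ∧ (p.2 : ℝ) ≤ p.1 / ε) (j : ℕ) :
    0 ≤ blk Ω j ∧ blk Ω j ≤ 1 / ε * Muntz.dens Ω j := by
  classical
  have hfin : (block Ω j).Finite := Muntz.MAIN_finite hε hang j
  unfold blk
  rw [finsum_mem_eq_finite_toFinset_sum _ hfin]
  constructor
  · exact Finset.sum_nonneg fun p _ => by positivity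
  · have h1 : ∀ p ∈ hfin.toFinset, 1 / ((p.1 : ℝ) * p.2) ≤ 1 / (ε * 4 ^ j) := by
      intro p hp
      rw [Set.Finite.mem_toFinset] at hp
      obtain ⟨hp0, hp1, hp2⟩ := hp
      have h2 : (2 : ℝ) ^ j ≤ p.1 := by exact_mod_cast hp1
      have h3 := (hang p hp0).1
      have h4 : (0 : ℝ) < 2 ^ j := by positivity
      have h5 : (4 : ℝ) ^ j = 2 ^ j * 2 ^ j := by
        rw [← mul_pow]
        norm_num
      apply one_div_le_one_div_of_le (by positivity)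
      rw [h5]
      calc ε * (2 ^ j * 2 ^ j) = 2 ^ j * (ε * 2 ^ j) := by ring
        _ ≤ (p.1 : ℝ) * p.2 := by
          gcongr
          exact le_trans (by gcongr) h3
    refine le_trans (Finset.sum_le_card_nsmul _ _ _ h1) ?_
    rw [nsmul_eq_mul]
    unfold Muntz.dens
    have h6 : (Ω ∩ {p | 2 ^ j ≤ p.1 ∧ p.1 < 2 ^ (j + 1)}).ncard = hfin.toFinset.card :=
      Set.ncard_eq_toFinset_card _ hfin
    rw [h6]
    apply le_of_eq
    field_simp

/-- **Partial answer.**  `Ω` is a set of pairs of positive integers in the angle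
`ε m ≤ n ≤ m / ε`, `L j ≥ 1`.  Suppose that for every `j` with `L j > 1` and every point `p` of
the `j`-th dyadic block the rectangle `|m' - m| ≤ L j`, `|(n' - n) - (n / m) (m' - m)| ≤ 1` contains
at most `C` points of the block, and that `∑ min (blk Ω j) ((L j * blk Ω j) ^ 2) = ∞`.
Then the monomials `x ^ m y ^ n`, `(m, n) ∈ Ω`, span `C_0(Q)` and `L²(Q)`. -/
theorem result {Ω : Set (ℕ × ℕ)} {ε : ℝ} (hε : 0 < ε) (hε1 : ε ≤ 1)
    (hpos : ∀ p ∈ Ω, 1 ≤ p.1 ∧ 1 ≤ p.2)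
    (hang : ∀ p ∈ Ω, ε * p.1 ≤ p.2 ∧ (p.2 : ℝ) ≤ p.1 / ε)
    (L : ℕ → ℝ) (hL : ∀ j, 1 ≤ L j) (C : ℕ)
    (hreg : ∀ j, 1 < L j → ∀ p ∈ block Ω j,
      {q ∈ block Ω j | |(q.1 : ℝ) - p.1| ≤ L j ∧
        |((q.2 : ℝ) - p.2) - (p.2 : ℝ) / p.1 * ((q.1 : ℝ) - p.1)| ≤ 1}.ncard ≤ C)
    (hdiv : ¬ Summable (fun j => min (blk Ω j) ((L j * blk Ω j) ^ 2))) :
    SpansC0 Ω ∧ SpansL2 Ω := by
  have hmain := Muntz.main hε hε1 hpos hang L hL (max C 9) (by
    intro j p hp h1 h2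
    rcases eq_or_lt_of_le (hL j) with h | h
    · rw [← h]
      exact le_trans (near_card j p) (le_max_right _ _)
    · refine le_trans (le_of_eq ?_) (le_trans (hreg j h p ⟨hp, h1, h2⟩) (le_max_left _ _))
      congr 1
      ext q
      constructor
      · rintro ⟨a1, a2, a3, a4⟩
        exact ⟨⟨a1, a2, a3⟩, a4⟩
      · rintro ⟨⟨a1, a2, a3⟩, a4⟩
        exact ⟨a1, a2, a3, a4⟩) (by
    intro hsum
    apply hdiv
    refine Summable.of_nonneg_of_le (fun j => ?_) (fun j => ?_)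
      (hsum.mul_left ((1 / ε) ^ 2))
    · exact le_min (blk_le hε hang j).1 (by positivity)
    · obtain ⟨h0, h1⟩ := blk_le hε hang j
      have hL0 : 0 < L j := by linarith [hL j]
      have hd0 : 0 ≤ Muntz.dens Ω j := by
        unfold Muntz.dens
        positivity
      have hε2 : 1 ≤ 1 / ε := by
        rw [le_div_iff₀ hε]
        linarith
      rcases le_total (Muntz.dens Ω j) ((L j * Muntz.dens Ω j) ^ 2) with h | h
      · rw [min_eq_left h]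
        refine le_trans (min_le_left _ _) (le_trans h1 ?_)
        gcongr
        nlinarith
      · rw [min_eq_right h]
        refine le_trans (min_le_right _ _) ?_
        calc (L j * blk Ω j) ^ 2 ≤ (L j * (1 / ε * Muntz.dens Ω j)) ^ 2 := by gcongr
          _ = _ := by ring)
  exact hmain

end Pool.Agent.Results.MP_dde81e_an.DyadicBlocks
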